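import Pool.Agent.MQG.StmtsB

/-! # Squad MQG: row LFV (functionals of two vectors of `K' ⊗ H` are in `L^1`) -/

set_option autoImplicit false

namespace Pool.Agent.MQG.H84

open scoped InnerProductSpace InnerProduct Topology
open Complex Filter

/-- `a ↦ 1 ⊗ Λ a` -/
noncomputable def Pm {ι κ : Type} {WW : Op (κ × ι)} (κ' : Type) (Λ : Al WW →⋆ₙₐ[ℂ] Op ι) :
    Al WW →L[ℂ] Op (κ' × ι) :=
  LinearMap.mkContinuous
    { toFun := fun a => leg (Equiv.prodComm κ' ι) (Λ a)
      map_add' := fun a b => by rw [map_add, leg_add]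
      map_smul' := fun r a => by rw [map_smul, leg_smul, RingHom.id_apply] }
    1 (fun a => by
      rw [one_mul]
      exact (norm_leg_le _ _).trans (NonUnitalStarAlgHom.norm_apply_le Λ a))

theorem Pm_apply {ι κ : Type} {WW : Op (κ × ι)} (κ' : Type) (Λ : Al WW →⋆ₙₐ[ℂ] Op ι)
    (a : Al WW) : Pm κ' Λ a = leg (Equiv.prodComm κ' ι) (Λ a) := rfl

/-- `a ↦ ⟪s, (1 ⊗ Λ a) t⟫` -/
noncomputable def Fm {ι κ : Type} {WW : Op (κ × ι)} {κ' : Type} (Λ : Al WW →⋆ₙₐ[ℂ] Op ι)
    (s t : L2 (κ' × ι)) : Du WW :=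
  (innerSL ℂ s).comp (((ContinuousLinearMap.apply ℂ (L2 (κ' × ι))) t).comp (Pm κ' Λ))

theorem Fm_apply {ι κ : Type} {WW : Op (κ × ι)} {κ' : Type} (Λ : Al WW →⋆ₙₐ[ℂ] Op ι)
    (s t : L2 (κ' × ι)) (a : Al WW) :
    Fm Λ s t a = ⟪s, leg (Equiv.prodComm κ' ι) (Λ a) t⟫_ℂ := rfl

theorem leg_tn {ι κ' : Type} (T : Op ι) (x : L2 κ') (y : L2 ι) :
    leg (Equiv.prodComm κ' ι) T (tn x y) = tn x (T y) := by
  have h : ∀ (x : L2 κ') (y : L2 ι), tn x y = tl (Equiv.prodComm κ' ι) y x := by
    intro x y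
    ext c
    simp [mul_comm]
  rw [h, leg_tl, ← h]

theorem lfv : LfvStmt := by
  intro ι W κ WW Λ hΛ κ' s t
  refine ⟨Fm Λ s t, ?_, fun a => rfl⟩
  -- elementary tensors
  have h0 : ∀ (p q : L2 κ') (x z : L2 ι), Fm Λ (tn p x) (tn q z) ∈ L1 W WW := by
    intro p q x z
    have h1 : ∃ ω : Du WW, ω ∈ L1 W WW ∧ ∀ a, ω a = ⟪x, Λ a z⟫_ℂ := by
      let Q : Al WW →L[ℂ] Op ι := LinearMap.mkContinuous
        { toFun := fun a => Λ a
          map_add' := fun a b => map_add Λ a b
          map_smul' := fun r a => map_smul Λ r a } 1 (fun a => by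
            rw [one_mul]
            exact NonUnitalStarAlgHom.norm_apply_le Λ a)
      refine ⟨(innerSL ℂ x).comp (((ContinuousLinearMap.apply ℂ (L2 ι)) z).comp Q), ?_,
        fun a => rfl⟩
      exact Submodule.le_topologicalClosure _ (Submodule.subset_span ⟨Λ, hΛ, x, z, fun a => rfl⟩)
    obtain ⟨ω, hω, hωa⟩ := h1
    have h2 : Fm Λ (tn p x) (tn q z) = ⟪p, q⟫_ℂ • ω := by
      ext a
      rw [Fm_apply, leg_tn, inner_tn, smul_apply, hωa, smul_eq_mul]
    rw [h2]
    exact Submodule.smul_mem _ _ hω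
  have hcl : IsClosed (L1 W WW : Set (Du WW)) := Submodule.isClosed_topologicalClosure _
  -- the second vector
  have h1 : ∀ (p : L2 κ') (x : L2 ι) (t : L2 (κ' × ι)), Fm Λ (tn p x) t ∈ L1 W WW := by
    intro p x t
    have hc : Continuous fun t : L2 (κ' × ι) => Fm Λ (tn p x) t := by
      unfold Fm
      exact continuous_const.clm_comp
        ((ContinuousLinearMap.continuous (ContinuousLinearMap.apply ℂ (L2 (κ' × ι)))).clm_comp
          continuous_const)
    have hcl' : IsClosed {t : L2 (κ' × ι) | Fm Λ (tn p x) t ∈ L1 W WW} := hcl.preimage hc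
    have hsub : (Submodule.span ℂ {ζ : L2 (κ' × ι) | ∃ ξ g, ζ = tn ξ g} : Set (L2 (κ' × ι))) ⊆
        {t : L2 (κ' × ι) | Fm Λ (tn p x) t ∈ L1 W WW} := by
      intro t ht
      refine Submodule.span_induction (p := fun t _ => Fm Λ (tn p x) t ∈ L1 W WW) ?_ ?_ ?_ ?_ ht
      · rintro _ ⟨q, z, rfl⟩
        exact h0 p q x z
      · have : Fm Λ (tn p x) 0 = 0 := by
          ext a
          rw [Fm_apply, map_zero, inner_zero_right]
          rfl
        rw [this]
        exact Submodule.zero_mem _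
      · intro a b _ _ ha hb
        have : Fm Λ (tn p x) (a + b) = Fm Λ (tn p x) a + Fm Λ (tn p x) b := by
          ext c
          rw [Fm_apply, map_add, inner_add_right]
          rfl
        rw [this]
        exact Submodule.add_mem _ ha hb
      · intro r a _ ha
        have : Fm Λ (tn p x) (r • a) = r • Fm Λ (tn p x) a := by
          ext c
          rw [Fm_apply, map_smul, inner_smul_right]
          rfl
        rw [this]
        exact Submodule.smul_mem _ _ ha
    exact hcl'.closure_subset_iff.mpr hsub (dense_span_tn t)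
  -- the first vector
  have hc : Continuous fun s : L2 (κ' × ι) => Fm Λ s t := by
    unfold Fm
    exact ((innerSL ℂ).continuous).clm_comp continuous_const
  have hcl' : IsClosed {s : L2 (κ' × ι) | Fm Λ s t ∈ L1 W WW} := hcl.preimage hc
  have hsub : (Submodule.span ℂ {ζ : L2 (κ' × ι) | ∃ ξ g, ζ = tn ξ g} : Set (L2 (κ' × ι))) ⊆
      {s : L2 (κ' × ι) | Fm Λ s t ∈ L1 W WW} := by
    intro s hs
    refine Submodule.span_induction (p := fun s _ => Fm Λ s t ∈ L1 W WW) ?_ ?_ ?_ ?_ hs
    · rintro _ ⟨p, x, rfl⟩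
      exact h1 p x t
    · have : Fm Λ 0 t = 0 := by
        ext a
        rw [Fm_apply, inner_zero_left]
        rfl
      rw [this]
      exact Submodule.zero_mem _
    · intro a b _ _ ha hb
      have : Fm Λ (a + b) t = Fm Λ a t + Fm Λ b t := by
        ext c
        rw [Fm_apply, inner_add_left]
        rfl
      rw [this]
      exact Submodule.add_mem _ ha hb
    · intro r a _ ha
      have : Fm Λ (r • a) t = (starRingEnd ℂ) r • Fm Λ a t := by
        ext c
        rw [Fm_apply, inner_smul_left]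
        rfl
      rw [this]
      exact Submodule.smul_mem _ _ ha
  exact hcl'.closure_subset_iff.mpr hsub (dense_span_tn s)

end Pool.Agent.MQG.H84
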